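import Pool.Agent.H78.Cyc

set_option autoImplicit false
open Pool.Agent.H78.Cyc

theorem Pool.Agent.Results.MP_c13936_co.Counter.result :
    ∃ (G : SimpleGraph (Fin 14)) (S : Finset (Sym2 (Fin 14))),
      (∀ v, (G.neighborSet v).ncard = 3) ∧ CycConn G 6 ∧ (S : Set (Sym2 (Fin 14))) ⊆ G.edgeSet ∧
      S.card = 6 - 1 ∧ PathSystem (S : Set (Sym2 (Fin 14))) ∧
      ∀ (u : Fin 14) (p : G.Walk u u), p.IsCycle → ¬ ∀ e ∈ S, e ∈ p.edges := by
  refine ⟨H, S, fun v => ?_, cc, fun e he => ?_, by decide +kernel, ps, nocyc⟩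
  · have e : H.neighborSet v = ((Finset.univ.filter (fun a => H.Adj v a) : Finset (Fin 14)) :
        Set (Fin 14)) := by
      ext a; simp
    rw [e, Set.ncard_coe_finset]
    clear e; revert v; decide +kernel
  · simp only [S, Finset.coe_insert, Finset.coe_singleton, Set.mem_insert_iff,
      Set.mem_singleton_iff] at he
    rcases he with rfl | rfl | rfl | rfl | rfl <;> rw [SimpleGraph.mem_edgeSet] <;> decide
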